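import Mathlib
import Pool.Agent.Helper63.Chrom.Final

/-!
# MP_ee3012_co, Q1: the chromatic threshold of 4-chromatic graphs in sparse random graphs

For every graph `H` with `χ(H) ≥ 4` and every `p` with `n^(-1/m₂(H)) ≪ p ≪ 1` the chromatic
threshold `δ_χ(H, p)` is at least `2/3`.
-/

set_option autoImplicit false
open Filter Topology

namespace Pool.Agent.Results.MP_ee3012_co.ThresholdTwoThirds

/-- `m₂(H)`: the maximum of `(e(F) - 1) / (v(F) - 2)` over the subgraphs `F` of `H` with at least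
three vertices -/
noncomputable def m2 {k : ℕ} (H : SimpleGraph (Fin k)) : ℝ :=
  sSup {x : ℝ | ∃ F : H.Subgraph, 3 ≤ F.verts.ncard ∧
    x = ((F.edgeSet.ncard : ℝ) - 1) / ((F.verts.ncard : ℝ) - 2)}

open Classical in
/-- the probability that the random graph `G(n, q)` has property `A` -/
noncomputable def gnp (n : ℕ) (q : ℝ) (A : SimpleGraph (Fin n) → Prop) : ℝ :=
  ∑ Γ : SimpleGraph (Fin n),
    if A Γ then q ^ Γ.edgeSet.ncard * (1 - q) ^ (n.choose 2 - Γ.edgeSet.ncard) else 0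

/-- every spanning subgraph `G` of `Γ` with minimum degree at least `D` and without copies of `H`
is `C`-colourable -/
def Good {k n : ℕ} (H : SimpleGraph (Fin k)) (D : ℝ) (C : ℕ) (Γ : SimpleGraph (Fin n)) : Prop :=
  ∀ G : SimpleGraph (Fin n), G ≤ Γ → ¬ H.IsContained G →
    (∀ v, D ≤ ((G.neighborSet v).ncard : ℝ)) → G.Colorable C

/-- the chromatic threshold `δ_χ(H, p)` (the infimum is taken in the extended reals) -/
noncomputable def chromThreshold {k : ℕ} (H : SimpleGraph (Fin k)) (p : ℕ → ℝ) : EReal :=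
  sInf {x : EReal | ∃ d : ℝ, 0 < d ∧ x = (d : EReal) ∧ ∃ C : ℕ, 0 < C ∧
    Tendsto (fun n : ℕ => gnp n (p n) (Good H (d * p n * n) C)) atTop (nhds 1)}

theorem m2_gt_one {k : ℕ} (H : SimpleGraph (Fin k)) (hH : ¬ H.Colorable 3) : 1 < m2 H := by
  classical
  obtain ⟨F, ℓ, hℓ, hv, he⟩ := Pool.Agent.Helper63.Chrom.exists_cycle_subgraph H
    (fun h => hH (h.mono (by norm_num)))
  have hℓ' : (3 : ℝ) ≤ ℓ := by exact_mod_cast hℓ
  have h1 : ((ℓ : ℝ) - 1) / ((ℓ : ℝ) - 2) ≤ m2 H := by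
    unfold m2
    apply le_csSup
    · apply Set.Finite.bddAbove
      apply Set.Finite.subset (Set.finite_range (fun F : H.Subgraph =>
        ((F.edgeSet.ncard : ℝ) - 1) / ((F.verts.ncard : ℝ) - 2)))
      rintro x ⟨F, _, rfl⟩
      exact ⟨F, rfl⟩
    · exact ⟨F, by rw [hv]; exact hℓ, by rw [hv, he]⟩
  refine lt_of_lt_of_le ?_ h1
  rw [lt_div_iff₀ (by linarith)]
  linarith

theorem not_tendsto {k : ℕ} (H : SimpleGraph (Fin k)) (hH : ¬ H.Colorable 3) (p : ℕ → ℝ)
    (hp : ∀ n, 0 < p n ∧ p n ≤ 1)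
    (hten : Tendsto (fun n : ℕ => (n : ℝ) ^ (-(1 / m2 H)) / p n) atTop (nhds 0))
    (hp0' : Tendsto p atTop (nhds 0)) (d : ℝ) (hd : d < 2 / 3) (C : ℕ) :
    ¬ Tendsto (fun n : ℕ => gnp n (p n) (Good H (d * p n * n) C)) atTop (nhds 1) := by
  classical
  intro hlim
  have hm := m2_gt_one H hH
  set β : ℝ := 1 / m2 H with hβ
  have hβ1 : β < 1 := by
    rw [hβ, div_lt_one (by linarith)]; linarith
  set α : ℝ := 1 - β with hα
  have hα0 : 0 < α := by rw [hα]; linarith
  obtain ⟨p₀, hp₀, X, b, hb, hfin⟩ := Pool.Agent.Helper63.Chrom.finite_bound H hH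
    (C := max C 2) (le_max_right _ _) (d := max d 0) (le_max_right _ _)
    (max_lt hd (by norm_num))
  -- eventually small
  have ev1 : ∀ᶠ n : ℕ in atTop, p n ≤ p₀ := by
    filter_upwards [hp0'.eventually_lt_const hp₀] with n hn
    exact hn.le
  have ev2 : ∀ᶠ n : ℕ in atTop, (n : ℝ) ^ α ≤ p n * n := by
    have h1 : ∀ᶠ n : ℕ in atTop, (n : ℝ) ^ (-β) / p n < 1 := hten.eventually_lt_const one_pos
    filter_upwards [h1, eventually_ge_atTop 1] with n hn hn1
    have hn0 : (0 : ℝ) < n := by exact_mod_cast hn1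
    have h3 := (hp n).1
    rw [div_lt_one h3] at hn
    have h4 : (n : ℝ) ^ α = (n : ℝ) ^ (-β) * n := by
      rw [hα, sub_eq_neg_add, Real.rpow_add hn0, Real.rpow_one]
    rw [h4]
    exact mul_le_mul_of_nonneg_right hn.le hn0.le
  have hpow : Tendsto (fun n : ℕ => (n : ℝ) ^ α) atTop atTop :=
    (tendsto_rpow_atTop hα0).comp tendsto_natCast_atTop_atTop
  have ev3 : ∀ᶠ n : ℕ in atTop, X ≤ (n : ℝ) ^ α := hpow.eventually_ge_atTop X
  have ev4 : ∀ᶠ n : ℕ in atTop, (n : ℝ) * Real.exp (- (b * (n : ℝ) ^ α)) ≤ 1 / 16 := by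
    have h1 := (tendsto_rpow_mul_exp_neg_mul_atTop_nhds_zero (1 / α) b hb).comp hpow
    have h2 : ∀ᶠ n : ℕ in atTop, ((n : ℝ) ^ α) ^ (1 / α) * Real.exp (-b * (n : ℝ) ^ α) < 1 / 16 :=
      h1.eventually_lt_const (by norm_num)
    filter_upwards [h2] with n hn
    rw [← Real.rpow_mul (by positivity), mul_one_div, div_self hα0.ne', Real.rpow_one,
      neg_mul] at hn
    exact hn.le
  have ev5 := hlim.eventually_const_lt (show (1 / 2 : ℝ) < 1 by norm_num)
  obtain ⟨n, h1, h2, h3, h4, h5⟩ := (ev1.and (ev2.and (ev3.and (ev4.and ev5)))).exists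
  have hp0 := (hp n).1
  have hp1 := (hp n).2
  have hbad := hfin n (p n) hp0 hp1 h1 (h3.trans h2) (by
    refine le_trans ?_ h4
    apply mul_le_mul_of_nonneg_left _ (by positivity)
    rw [Real.exp_le_exp]
    have := mul_le_mul_of_nonneg_left h2 hb.le
    linarith)
  unfold gnp at h5
  rw [Pool.Agent.Helper63.Chrom.sum_graph] at h5
  have hcompl := Pool.Agent.Helper63.Chrom.PP_compl (p n)
    (Pool.Agent.Helper63.Chrom.ins (Finset.univ : Finset (Fin n)))
    (fun S => Pool.Agent.Helper63.Chrom.Bad H (max d 0 * p n * n) (max C 2)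
      (SimpleGraph.fromEdgeSet (S : Set (Sym2 (Fin n)))))
  have hle : Pool.Agent.Helper63.Chrom.PP (p n)
      (Pool.Agent.Helper63.Chrom.ins (Finset.univ : Finset (Fin n)))
      (fun S => Good H (d * p n * n) C (SimpleGraph.fromEdgeSet (S : Set (Sym2 (Fin n))))) ≤
      Pool.Agent.Helper63.Chrom.PP (p n)
      (Pool.Agent.Helper63.Chrom.ins (Finset.univ : Finset (Fin n)))
      (fun S => ¬ Pool.Agent.Helper63.Chrom.Bad H (max d 0 * p n * n) (max C 2)
      (SimpleGraph.fromEdgeSet (S : Set (Sym2 (Fin n))))) := by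
    apply Pool.Agent.Helper63.Chrom.PP_mono hp0.le hp1
    rintro S _ hgood ⟨G, hG1, hG2, hG3, hG4⟩
    apply hG4
    have h6 := hgood G hG1 hG2 (by
      intro v
      refine le_trans ?_ (hG3 v)
      have : d ≤ max d 0 := le_max_left _ _
      have h7 : 0 ≤ p n * n := by positivity
      have h8 := mul_le_mul_of_nonneg_right this h7
      linarith)
    exact h6.mono (le_max_left _ _)
  rw [hcompl] at hle
  linarith

/-- For every graph `H` with `χ(H) ≥ 4` and every `p` with `n^(-1/m₂(H)) ≪ p ≪ 1` the chromatic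
threshold `δ_χ(H, p)` is at least `2/3`. -/
theorem result : ∀ (k : ℕ) (H : SimpleGraph (Fin k)), 4 ≤ H.chromaticNumber →
    ∀ p : ℕ → ℝ, (∀ n, 0 < p n ∧ p n ≤ 1) →
      Tendsto (fun n : ℕ => (n : ℝ) ^ (-(1 / m2 H)) / p n) atTop (nhds 0) →
      Tendsto p atTop (nhds 0) →
      ((2 / 3 : ℝ) : EReal) ≤ chromThreshold H p := by
  intro k H hχ p hp hten hp0
  have hH : ¬ H.Colorable 3 := by
    intro h
    have h1 := h.chromaticNumber_le
    exact absurd (hχ.trans h1) (by decide)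
  apply le_sInf
  rintro x ⟨d, _, rfl, C, _, hlim⟩
  rw [EReal.coe_le_coe_iff]
  by_contra hd
  exact not_tendsto H hH p hp hten hp0 d (lt_of_not_ge hd) C hlim

end Pool.Agent.Results.MP_ee3012_co.ThresholdTwoThirds
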